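import Pool.Agent.U691.Shang.Ev
import Pool.Agent.Helper120_Alt.Artin

/-!
# The character of the free alternative algebra on two generators

By Artin's theorem (`Pool.Agent.Helper120_Alt.mem_altIdeal_iff`) it is the free associative
algebra.
-/

set_option autoImplicit false

namespace Pool.Agent.U691.Shang

open MvPowerSeries Pool.Agent.Helper120_Alt

variable (F : Type) [Field F]

theorem altKer_eq (d : ℕ) : altKer F d = altIdeal F (Fin d) ∅ := by
  unfold altKer altIdeal idl alts
  congr 1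
  ext I
  simp only [Set.mem_ofPred_eq, Set.union_empty]
  constructor
  · rintro ⟨h1, h2⟩
    refine ⟨?_, h2⟩
    rintro p ⟨a, b, rfl | rfl⟩
    · exact (h1 a b).1
    · exact (h1 a b).2
  · rintro ⟨h1, h2⟩
    refine ⟨fun a b => ⟨h1 ⟨a, b, Or.inl rfl⟩, h1 ⟨a, b, Or.inr rfl⟩⟩, h2⟩

theorem mem_altKer_iff (g : NA F (Fin 2)) : g ∈ altKer F 2 ↔ psi F (Fin 2) g = 0 := by
  rw [altKer_eq, mem_altIdeal_iff, Set.image_empty]
  have : idl F (∅ : Set (AS F (Fin 2))) = ⊥ := by
    rw [eq_bot_iff]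
    apply idl_le
    · exact Set.empty_subset _
    · intro a x hx
      rw [Submodule.mem_bot] at hx
      subst hx
      simp
  rw [this, Submodule.mem_bot]

/-- the map to the free associative algebra -/
noncomputable def phi2 : FreeAlt F 2 →ₗ[F] AS F (Fin 2) :=
  (altKer F 2).liftQ (psi F (Fin 2) : NA F (Fin 2) →ₗ[F] AS F (Fin 2)) fun g hg =>
    (mem_altKer_iff F g).1 hg

theorem phi2_mk (g : NA F (Fin 2)) : phi2 F ((altKer F 2).mkQ g) = psi F (Fin 2) g := rfl

theorem phi2_injective : Function.Injective (phi2 F) := by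
  rw [← LinearMap.ker_eq_bot, eq_bot_iff]
  intro x hx
  obtain ⟨g, rfl⟩ := (altKer F 2).mkQ_surjective x
  rw [LinearMap.mem_ker, phi2_mk, ← mem_altKer_iff] at hx
  rw [Submodule.mem_bot, Submodule.mkQ_apply, Submodule.Quotient.mk_eq_zero]
  exact hx

/-- the multidegree of a word -/
noncomputable def wdeg {d : ℕ} (u : FreeSemigroup (Fin d)) : Fin d →₀ ℕ :=
  Finsupp.single u.head 1 + (u.tail.map fun i => Finsupp.single i 1).sum

theorem wdeg_mul {d : ℕ} (u v : FreeSemigroup (Fin d)) : wdeg (u * v) = wdeg u + wdeg v := by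
  unfold wdeg
  simp [add_assoc]

theorem mdeg_eq {d : ℕ} (m : FreeMagma (Fin d)) : mdeg m = wdeg (FreeMagma.toFreeSemigroup m) := by
  induction m with
  | ih1 i =>
    show Finsupp.single i 1 = _
    rw [FreeMagma.toFreeSemigroup_of]
    simp [wdeg]
  | ih2 a b ha hb =>
    show mdeg a + mdeg b = _
    rw [ha, hb, map_mul, wdeg_mul]

/-- words of length `n + 1` -/
def wd {n : ℕ} (w : Fin (n + 1) → Fin 2) : FreeSemigroup (Fin 2) :=
  ⟨w 0, List.ofFn fun i : Fin n => w i.succ⟩

theorem wd_injective (n : ℕ) : Function.Injective (wd (n := n)) := by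
  intro w w' h
  unfold wd at h
  rw [FreeSemigroup.mk.injEq] at h
  obtain ⟨h1, h2⟩ := h
  have h3 := List.ofFn_injective h2
  funext i
  refine Fin.cases h1 (fun j => ?_) i
  exact congrFun h3 j

theorem wdeg_wd {n : ℕ} (w : Fin (n + 1) → Fin 2) : wdeg (wd w) = ∑ i, Finsupp.single (w i) 1 := by
  unfold wdeg wd
  rw [Fin.sum_univ_succ]
  simp [List.map_ofFn, List.sum_ofFn]

theorem exists_wd {n : ℕ} (u : FreeSemigroup (Fin 2)) (h : (wdeg u).degree = n + 1) :
    ∃ w : Fin (n + 1) → Fin 2, wd w = u := by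
  obtain ⟨a, l⟩ := u
  have h1 : l.length = n := by
    unfold wdeg at h
    simp only [map_add, Finsupp.degree_single] at h
    have h2 : ∀ l : List (Fin 2), ((l.map fun i => (Finsupp.single i 1 : Fin 2 →₀ ℕ)).sum).degree =
        l.length := by
      intro l
      induction l with
      | nil => simp
      | cons x l ih => simp [ih, add_comm]
    rw [h2] at h
    omega
  subst h1
  refine ⟨Fin.cons a l.get, ?_⟩
  unfold wd
  simp

/-- the words of multidegree `v` -/
abbrev WV (n : ℕ) (v : Fin 2 →₀ ℕ) : Type :=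
  {w : Fin (n + 1) → Fin 2 // ∑ i, Finsupp.single (w i) 1 = v}

theorem finrank_altWt {n : ℕ} {v : Fin 2 →₀ ℕ} (hv : v.degree = n + 1) :
    Module.finrank F (altWt F 2 v) = Nat.card (WV n v) := by
  classical
  rw [(Submodule.equivMapOfInjective (phi2 F) (phi2_injective F) (altWt F 2 v)).finrank_eq]
  let b : WV n v → AS F (Fin 2) := fun w => MonoidAlgebra.single (wd w.1) 1
  have h1 : (altWt F 2 v).map (phi2 F) = Submodule.span F (Set.range b) := by
    unfold altWt
    rw [Submodule.map_span]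
    congr 1
    ext y
    constructor
    · rintro ⟨_, ⟨m, hm, rfl⟩, rfl⟩
      rw [phi2_mk, psi_single]
      rw [mdeg_eq] at hm
      obtain ⟨w, hw⟩ := exists_wd (n := n) (FreeMagma.toFreeSemigroup m) (by rw [hm, hv])
      refine ⟨⟨w, ?_⟩, ?_⟩
      · rw [← wdeg_wd, hw, hm]
      · show MonoidAlgebra.single (wd w) 1 = _
        rw [hw]
    · rintro ⟨w, rfl⟩
      refine ⟨(altKer F 2).mkQ (MonoidAlgebra.single (ln (wd w.1)) 1), ⟨ln (wd w.1), ?_, rfl⟩, ?_⟩
      · rw [mdeg_eq, flat_ln, wdeg_wd]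
        exact w.2
      · rw [phi2_mk, psi_single, flat_ln]
  have h2 : LinearIndependent F b := by
    have h3 := (MonoidAlgebra.basis (FreeSemigroup (Fin 2)) F).linearIndependent
    exact h3.comp (fun w : WV n v => wd w.1) (fun w w' h => Subtype.ext (wd_injective n h))
  rw [h1, finrank_span_eq_card h2, Nat.card_eq_fintype_card]

theorem sum_chAlt (m : ℕ) (hm : 1 ≤ m) :
    ∑ v ∈ Finset.univ.finsuppAntidiag m, coeff v (chAlt F 2) = 2 ^ m := by
  classical
  obtain ⟨n, rfl⟩ := Nat.exists_eq_add_of_le' hm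
  have h1 : ∀ v ∈ (Finset.univ : Finset (Fin 2)).finsuppAntidiag (n + 1), coeff v (chAlt F 2) =
      (((Finset.univ : Finset (Fin (n + 1) → Fin 2)).filter
        fun w => ∑ i, Finsupp.single (w i) 1 = v).card : ℤ) := by
    intro v hv
    rw [mem_fsa] at hv
    show ((Module.finrank F (altWt F 2 v) : ℕ) : ℤ) = _
    rw [finrank_altWt F hv, Nat.card_eq_fintype_card, Fintype.card_subtype]
  rw [Finset.sum_congr rfl h1, ← Nat.cast_sum, ← Finset.card_eq_sum_card_fiberwise]
  · simp
  · intro w _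
    rw [Finset.mem_coe, mem_fsa, map_sum]
    simp

theorem chAlt_nonneg (v : Fin 2 →₀ ℕ) : 0 ≤ coeff v (chAlt F 2) := by
  show (0 : ℤ) ≤ ((Module.finrank F (altWt F 2 v) : ℕ) : ℤ)
  exact Int.natCast_nonneg _

end Pool.Agent.U691.Shang
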