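import Mathlib

/-!
# The numerical part: a product in a group ring modulo `3^18`
-/

set_option autoImplicit false

namespace Pool.Agent.U691.Shang

/-- the modulus `3^18` -/
abbrev MM : ℕ := 387420489

/-! ### polynomials as lists of coefficients modulo `MM` -/

section Lists

variable {A : Type} [CommRing A]

/-- the value of a polynomial at `u` -/
def evL (u : A) : List ℕ → A
  | [] => 0
  | c :: l => c + u * evL u l

/-- sum -/
def addL : List ℕ → List ℕ → List ℕ
  | [], b => b
  | a :: l, [] => a :: l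
  | a :: l, b :: k => ((a + b) % MM) :: addL l k

/-- product -/
def mulL : List ℕ → List ℕ → List ℕ
  | [], _ => []
  | a :: l, b => addL (b.map fun c => (a * c) % MM) (0 :: mulL l b)

/-- remove zeros at the end -/
def trimL : List ℕ → List ℕ
  | [] => []
  | a :: l => match trimL l with
    | [] => if a = 0 then [] else [a]
    | b :: k => a :: b :: k

/-- `(1 - 3^m u)^(2^j)` -/
def sqL (m : ℕ) : ℕ → List ℕ
  | 0 => [1, MM - 3 ^ m]
  | j + 1 => trimL (mulL (sqL m j) (sqL m j))

/-- `∏_{m ≤ n} (1 - 3^m u)^(2^m)` -/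
def prL : ℕ → List ℕ
  | 0 => [1]
  | n + 1 => trimL (mulL (prL n) (sqL (n + 1) (n + 1)))

variable (hM : (MM : A) = 0) (u : A)
include hM

theorem cast_mod (a : ℕ) : ((a % MM : ℕ) : A) = a := by
  conv_rhs => rw [← Nat.div_add_mod a MM]
  rw [Nat.cast_add, Nat.cast_mul, hM]
  ring

theorem evL_addL (a b : List ℕ) : evL u (addL a b) = evL u a + evL u b := by
  induction a generalizing b with
  | nil => simp [addL, evL]
  | cons x l ih =>
    cases b with
    | nil => simp [addL, evL]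
    | cons y k =>
      simp only [addL, evL, ih, cast_mod hM]
      push_cast
      ring

theorem evL_map (a : ℕ) (b : List ℕ) :
    evL u (b.map fun c => (a * c) % MM) = a * evL u b := by
  induction b with
  | nil => simp [evL]
  | cons y k ih =>
    simp only [List.map_cons, evL, ih, cast_mod hM]
    push_cast
    ring

theorem evL_mulL (a b : List ℕ) : evL u (mulL a b) = evL u a * evL u b := by
  induction a with
  | nil => simp [mulL, evL]
  | cons x l ih =>
    simp only [mulL, evL_addL hM, evL_map hM, evL, ih]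
    push_cast
    ring

omit hM in
theorem evL_trimL (a : List ℕ) : evL u (trimL a) = evL u a := by
  induction a with
  | nil => rfl
  | cons x l ih =>
    unfold trimL
    split
    · rename_i h
      rw [h] at ih
      split_ifs with hx
      · subst hx
        simp only [evL] at ih ⊢
        rw [← ih]; simp
      · simp only [evL] at ih ⊢
        rw [← ih]
    · rename_i b k h
      rw [h] at ih
      simp only [evL] at ih ⊢
      rw [← ih]

theorem evL_sqL {m : ℕ} (hm : m ≤ 18) (j : ℕ) :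
    evL u (sqL m j) = (1 - 3 ^ m * u) ^ (2 ^ j) := by
  induction j with
  | zero =>
    have h3 : 3 ^ m ≤ MM := by
      calc 3 ^ m ≤ 3 ^ 18 := Nat.pow_le_pow_right (by norm_num) hm
        _ = MM := by norm_num
    simp only [sqL, evL]
    rw [Nat.cast_sub h3, hM]
    push_cast
    ring
  | succ j ih =>
    simp only [sqL]
    rw [evL_trimL, evL_mulL hM, ih, ← pow_add]
    congr 1
    ring

theorem evL_prL {n : ℕ} (hn : n ≤ 18) :
    evL u (prL n) = ∏ m ∈ Finset.Icc 1 n, (1 - 3 ^ m * u) ^ (2 ^ m) := by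
  induction n with
  | zero => simp [prL, evL]
  | succ n ih =>
    simp only [prL]
    rw [evL_trimL, evL_mulL hM, ih (by omega), evL_sqL hM u hn,
      Finset.prod_Icc_succ_top (by omega)]

end Lists

/-- the coefficients of `∏_{m ≤ 17} (1 - 3^m u)^(2^m)` modulo `3^18` -/
def FL : List ℕ := [1, 77484099, 178669215, 155573622, 163224558, 123405849, 222024240, 63772920,
  172186884]

set_option maxRecDepth 100000 in
theorem prL_17 : prL 17 = FL := by decide +kernel

/-! ### the group ring of the root lattice modulo `3^18` -/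

/-- integers modulo `3^18` -/
abbrev Z18 : Type := ZMod MM

/-- the group ring -/
abbrev T18 : Type := AddMonoidAlgebra Z18 (ℤ × ℤ)

/-- `e^μ` -/
noncomputable def et (μ : ℤ × ℤ) : T18 := AddMonoidAlgebra.single μ 1

theorem et_mul (μ ν : ℤ × ℤ) : et μ * et ν = et (μ + ν) := by
  unfold et
  rw [AddMonoidAlgebra.single_mul_single, one_mul]

theorem et_pow (μ : ℤ × ℤ) (n : ℕ) : et μ ^ n = et (n • μ) := by
  unfold et
  rw [AddMonoidAlgebra.single_pow, one_pow]

/-- the multiplicity functional modulo `3^18` -/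
noncomputable def mt (μ : ℤ × ℤ) (f : T18) : Z18 :=
  (f * ((1 - et (-1, 0)) * (1 - et (0, -1)) * (1 - et (-1, -1)))).coeff μ

/-- the coefficients as a function -/
def cf (k : ℕ) : ℤ := (FL.getD k 0 : ℕ)

/-- the coefficients of `F(v) F(1/v)` -/
def gg (n : ℤ) : ℤ :=
  ((Finset.range 9 ×ˢ Finset.range 9).filter fun p => (p.1 : ℤ) - p.2 = n).sum
    fun p => cf p.1 * cf p.2

/-- `F(v) = ∑ cf k v^k` in the group ring -/
noncomputable def FF (α : ℤ × ℤ) : T18 := ∑ k ∈ Finset.range 9, (cf k : Z18) • et ((k : ℤ) • α)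

theorem M18 : ((MM : ℕ) : T18) = 0 := by
  have : ((MM : ℕ) : Z18) = 0 := ZMod.natCast_self MM
  have h2 := congrArg (algebraMap Z18 T18) this
  rwa [map_natCast, map_zero] at h2

theorem prod_eq_FF (α : ℤ × ℤ) :
    ∏ m ∈ Finset.Icc 1 17, (1 - 3 ^ m * et α) ^ (2 ^ m) = FF α := by
  rw [← evL_prL M18 (et α) (by norm_num), prL_17]
  simp only [FL, evL, FF, Finset.sum_range_succ, Finset.sum_range_zero, cf]
  simp only [List.getD_cons_zero, List.getD_cons_succ, ← et_pow, natCast_zsmul]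
  simp only [Algebra.smul_def]
  push_cast
  simp only [map_ofNat]
  ring

theorem FF_mul (α : ℤ × ℤ) :
    FF α * FF (-α) = ∑ k ∈ Finset.range 17, (gg ((k : ℤ) - 8) : Z18) • et (((k : ℤ) - 8) • α) := by
  unfold FF
  rw [Finset.sum_mul_sum, ← Finset.sum_product']
  have hmaps : ∀ p ∈ Finset.range 9 ×ˢ Finset.range 9, (p.1 + 8 - p.2) ∈ Finset.range 17 := by
    intro p hp
    simp only [Finset.mem_product, Finset.mem_range] at hp
    simp only [Finset.mem_range]
    omega
  rw [← Finset.sum_fiberwise_of_maps_to hmaps]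
  refine Finset.sum_congr rfl fun k hk => ?_
  unfold gg
  rw [Int.cast_sum, Finset.sum_smul]
  have hset : ((Finset.range 9 ×ˢ Finset.range 9).filter fun p : ℕ × ℕ => p.1 + 8 - p.2 = k) =
      ((Finset.range 9 ×ˢ Finset.range 9).filter fun p : ℕ × ℕ => (p.1 : ℤ) - p.2 = (k : ℤ) - 8) := by
    refine Finset.filter_congr fun p hp => ?_
    simp only [Finset.mem_product, Finset.mem_range] at hp
    omega
  rw [hset]
  refine Finset.sum_congr rfl fun p hp => ?_
  rw [Finset.mem_filter] at hp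
  rw [smul_mul_smul_comm, et_mul, ← hp.2, Int.cast_mul]
  congr 2
  rw [smul_neg, sub_smul, sub_eq_add_neg]

/-- the coefficients of the product over the six roots -/
def cc (i j : ℤ) : ℤ := ∑ k ∈ Finset.range 17,
  gg (i - ((k : ℤ) - 8)) * gg (j - ((k : ℤ) - 8)) * gg ((k : ℤ) - 8)

theorem gg_zero {n : ℤ} (h : ¬ ∃ k ∈ Finset.range 17, (k : ℤ) - 8 = n) : gg n = 0 := by
  unfold gg
  rw [Finset.filter_false_of_mem, Finset.sum_empty]
  intro p hp heq
  simp only [Finset.mem_product, Finset.mem_range] at hp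
  refine h ⟨p.1 + 8 - p.2, ?_, ?_⟩
  · simp only [Finset.mem_range]; omega
  · omega

theorem sum_gg (n : ℤ) (c : Z18) :
    ∑ k ∈ Finset.range 17, (if (k : ℤ) - 8 = n then (gg ((k : ℤ) - 8) : Z18) * c else 0) =
      gg n * c := by
  by_cases h : ∃ k ∈ Finset.range 17, (k : ℤ) - 8 = n
  · obtain ⟨k, hk, rfl⟩ := h
    rw [Finset.sum_eq_single_of_mem k hk]
    · simp
    · intro b hb hbk
      rw [if_neg]
      omega
  · rw [gg_zero h, Int.cast_zero, zero_mul]
    refine Finset.sum_eq_zero fun k hk => ?_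
    rw [if_neg]
    exact fun h2 => h ⟨k, hk, h2⟩

/-- the product over the six roots -/
noncomputable def Psi : T18 :=
  FF (1, 0) * FF (-(1, 0)) * (FF (0, 1) * FF (-(0, 1))) * (FF (1, 1) * FF (-(1, 1)))

theorem Psi_coeff (i j : ℤ) : Psi.coeff (i, j) = (cc i j : Z18) := by
  unfold Psi
  rw [FF_mul, FF_mul, FF_mul]
  set g : ℕ → Z18 := fun k => (gg ((k : ℤ) - 8) : Z18) with hg
  have h1 : (∑ k ∈ Finset.range 17, g k • et (((k : ℤ) - 8) • ((1 : ℤ), (0 : ℤ)))) *
      (∑ k ∈ Finset.range 17, g k • et (((k : ℤ) - 8) • ((0 : ℤ), (1 : ℤ)))) *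
      (∑ k ∈ Finset.range 17, g k • et (((k : ℤ) - 8) • ((1 : ℤ), (1 : ℤ)))) =
      ∑ r ∈ Finset.range 17, ∑ p ∈ Finset.range 17, ∑ q ∈ Finset.range 17,
        (g p * g q * g r) • et (((p : ℤ) - 8) + ((r : ℤ) - 8), ((q : ℤ) - 8) + ((r : ℤ) - 8)) := by
    rw [Finset.mul_sum]
    refine Finset.sum_congr rfl fun r _ => ?_
    rw [Finset.sum_mul_sum, Finset.sum_mul]
    refine Finset.sum_congr rfl fun p _ => ?_
    rw [Finset.sum_mul]
    refine Finset.sum_congr rfl fun q _ => ?_
    rw [smul_mul_smul_comm, smul_mul_smul_comm, et_mul, et_mul]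
    congr 2
    ext <;> simp
  rw [h1]
  simp only [AddMonoidAlgebra.coeff_sum, Finsupp.coe_finsetSum, Finset.sum_apply,
    AddMonoidAlgebra.coeff_smul_apply]
  unfold cc
  rw [Int.cast_sum]
  refine Finset.sum_congr rfl fun r _ => ?_
  have h2 : ∀ p q : ℕ, (g p * g q * g r) • (et (((p : ℤ) - 8) + ((r : ℤ) - 8),
      ((q : ℤ) - 8) + ((r : ℤ) - 8))).coeff (i, j) =
      if (p : ℤ) - 8 = i - ((r : ℤ) - 8) then (if (q : ℤ) - 8 = j - ((r : ℤ) - 8) then
        g q * (g p * g r) else 0) else 0 := by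
    intro p q
    unfold et
    rw [AddMonoidAlgebra.coeff_single, Finsupp.single_apply]
    simp only [Prod.mk.injEq]
    split_ifs <;> first | omega | (simp only [smul_eq_mul]; ring)
  simp only [h2]
  have h3 : ∀ p : ℕ, (∑ q ∈ Finset.range 17, if (p : ℤ) - 8 = i - ((r : ℤ) - 8) then
      (if (q : ℤ) - 8 = j - ((r : ℤ) - 8) then g q * (g p * g r) else 0) else 0) =
      if (p : ℤ) - 8 = i - ((r : ℤ) - 8) then g p * (gg (j - ((r : ℤ) - 8)) * g r) else 0 := by
    intro p
    split_ifs with h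
    · rw [sum_gg]; ring
    · simp
  simp only [h3]
  rw [sum_gg]
  push_cast
  ring

theorem mt_Psi (i j : ℤ) : mt (i, j) Psi = ((cc i j - cc (i + 1) j - cc i (j + 1) + cc (i + 2) (j + 1)
    + cc (i + 1) (j + 2) - cc (i + 2) (j + 2) : ℤ) : Z18) := by
  have h1 : (1 - et (-1, 0)) * (1 - et (0, -1)) * (1 - et (-1, -1)) =
      (1 - et (-1, 0) - et (0, -1) + et (-2, -1) + et (-1, -2) - et (-2, -2) : T18) := by
    have e1 : et (-1, 0) * et (0, -1) = et (-1, -1) := by rw [et_mul]; rfl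
    have e2 : et (-1, 0) * et (-1, -1) = et (-2, -1) := by rw [et_mul]; rfl
    have e3 : et (0, -1) * et (-1, -1) = et (-1, -2) := by rw [et_mul]; rfl
    have e4 : et (-1, -1) * et (-1, -1) = et (-2, -2) := by rw [et_mul]; rfl
    linear_combination (1 - et (-1, -1)) * e1 - (-1 : T18) * e2 - (-1 : T18) * e3 - e4
  unfold mt
  rw [h1]
  simp only [mul_add, mul_sub, mul_one, AddMonoidAlgebra.coeff_add, AddMonoidAlgebra.coeff_sub,
    Finsupp.coe_add, Finsupp.coe_sub, Pi.add_apply, Pi.sub_apply]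
  unfold et
  simp only [AddMonoidAlgebra.coeff_mul_single_apply, mul_one]
  simp only [Prod.neg_mk, neg_neg, Prod.mk_add_mk, neg_zero, add_zero, Psi_coeff]
  push_cast
  ring

/-- the integer which should vanish modulo `3^18` -/
def obstruction : ℤ :=
  (cc 1 1 - cc 2 1 - cc 1 2 + cc 3 2 + cc 2 3 - cc 3 3) +
    6 * (cc 0 0 - cc 1 0 - cc 0 1 + cc 2 1 + cc 1 2 - cc 2 2)

theorem obstruction_mod : obstruction % MM = 2 * 3 ^ 17 := by decide +kernel

/-- the final contradiction -/
theorem no_scalar (β : Z18) (h0 : mt (0, 0) (β • Psi) = 1) (h1 : mt (1, 1) (β • Psi) = -6) :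
    False := by
  have hs : ∀ μ, mt μ (β • Psi) = β * mt μ Psi := by
    intro μ
    unfold mt
    rw [smul_mul_assoc, AddMonoidAlgebra.coeff_smul_apply, smul_eq_mul]
  rw [hs, mt_Psi] at h0 h1
  have h2 : (obstruction : Z18) = 0 := by
    have : (obstruction : Z18) = ((cc 1 1 - cc (1 + 1) 1 - cc 1 (1 + 1) + cc (1 + 2) (1 + 1)
        + cc (1 + 1) (1 + 2) - cc (1 + 2) (1 + 2) : ℤ) : Z18) +
        6 * ((cc 0 0 - cc (0 + 1) 0 - cc 0 (0 + 1) + cc (0 + 2) (0 + 1)
        + cc (0 + 1) (0 + 2) - cc (0 + 2) (0 + 2) : ℤ) : Z18) := by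
      unfold obstruction
      norm_num
    rw [this]
    generalize ((cc 1 1 - cc (1 + 1) 1 - cc 1 (1 + 1) + cc (1 + 2) (1 + 1)
        + cc (1 + 1) (1 + 2) - cc (1 + 2) (1 + 2) : ℤ) : Z18) = a at h1 ⊢
    generalize ((cc 0 0 - cc (0 + 1) 0 - cc 0 (0 + 1) + cc (0 + 2) (0 + 1)
        + cc (0 + 1) (0 + 2) - cc (0 + 2) (0 + 2) : ℤ) : Z18) = b at h0 ⊢
    linear_combination b * h1 - a * h0
  rw [ZMod.intCast_zmod_eq_zero_iff_dvd] at h2
  have h3 := obstruction_mod
  obtain ⟨k, hk⟩ := h2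
  rw [hk] at h3
  norm_num at h3

end Pool.Agent.U691.Shang
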