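import Pool.Agent.U691.Shang.Ev

/-!
# The contradiction
-/

set_option autoImplicit false

namespace Pool.Agent.U691.Shang

open MvPowerSeries

variable {d : ℕ}

/-- the ideal of the series without terms of degree at most `n` -/
def hiIdeal (d n : ℕ) : Ideal (RK d) where
  carrier := {f | ∀ w : Fin d →₀ ℕ, w.degree ≤ n → coeff w f = 0}
  add_mem' := by
    intro f g hf hg w hw
    rw [map_add, hf w hw, hg w hw, add_zero]
  zero_mem' := by
    intro w _
    rw [map_zero]
  smul_mem' := by
    classical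
    intro f g hg w hw
    rw [smul_eq_mul, coeff_mul]
    refine Finset.sum_eq_zero fun p hp => ?_
    rw [Finset.HasAntidiagonal.mem_antidiagonal] at hp
    rw [hg p.2, mul_zero]
    have : p.1.degree + p.2.degree = w.degree := by rw [← hp, map_add]
    omega

theorem mk_fac {n : ℕ} {v : Fin d →₀ ℕ} (hv : n < v.degree) (t : Lau) :
    Ideal.Quotient.mk (hiIdeal d n) (1 - monomial v t) = 1 := by
  rw [map_sub, map_one, sub_eq_self, Ideal.Quotient.eq_zero_iff_mem]
  intro w hw
  apply coeff_monomial_ne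
  rintro rfl
  omega

theorem lamProd_succ (X : RK d) (n : ℕ) : lamProd X (n + 1) = lamProd X n *
    ∏ v ∈ Finset.univ.finsuppAntidiag (n + 1), ∏ μ ∈ (coeff v X).coeff.support,
    ipow (1 - monomial v (ex μ)) ((coeff v X).coeff μ) := by
  unfold lamProd
  have h : expos d (n + 1) = expos d n ∪ Finset.univ.finsuppAntidiag (n + 1) := by
    ext w
    rw [Finset.mem_union, mem_expos, mem_expos, mem_fsa]
    omega
  rw [h, Finset.prod_union]
  rw [Finset.disjoint_left]
  intro w hw hw2
  rw [mem_expos] at hw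
  rw [mem_fsa] at hw2
  omega

theorem mk_lamProd_succ (X : RK d) (n : ℕ) :
    Ideal.Quotient.mk (hiIdeal d n) (lamProd X (n + 1)) =
      Ideal.Quotient.mk (hiIdeal d n) (lamProd X n) := by
  rw [lamProd_succ, map_mul]
  conv_rhs => rw [← mul_one (Ideal.Quotient.mk (hiIdeal d n) (lamProd X n))]
  congr 1
  rw [map_prod]
  refine Finset.prod_eq_one fun v hv => ?_
  rw [mem_fsa] at hv
  rw [map_prod]
  refine Finset.prod_eq_one fun μ _ => ?_
  rw [ipow_map _ (isUnit_fac (by omega) _), mk_fac (by omega), ipow_one]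

theorem coeff_lamProd (X : RK d) (w : Fin d →₀ ℕ) (n : ℕ) (hn : w.degree ≤ n) :
    coeff w (lamProd X n) = coeff w (lamProd X w.degree) := by
  obtain ⟨k, rfl⟩ := Nat.exists_eq_add_of_le hn
  clear hn
  induction k with
  | zero => rfl
  | succ k ih =>
    rw [← ih]
    have h := mk_lamProd_succ X (w.degree + k)
    rw [Ideal.Quotient.eq] at h
    have h2 := h w (by omega)
    rw [map_sub, sub_eq_zero] at h2
    exact h2

theorem ev_lam (X : RK d) : ev (lam X) = ev (lamProd X 17) := by
  rw [ev_apply, ev_apply]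
  refine Finset.sum_congr rfl fun w hw => ?_
  rw [mem_low] at hw
  congr 2
  rw [coeff_lamProd X w 17 (by omega)]
  rfl

theorem ev_fac {v : Fin d →₀ ℕ} (hv : 1 ≤ v.degree) (μ : ℤ × ℤ) (n : ℤ) :
    ev (ipow (1 - monomial v (ex μ)) n) = ipow (1 - 3 ^ v.degree * et μ) n := by
  rw [ipow_map _ (isUnit_fac hv _), map_sub, map_one, ev_monomial, bc_ex]

theorem zero_notMem_roots : (0 : ℤ × ℤ) ∉ roots := by
  unfold roots
  decide

theorem coeff_cls (a b : R d) (v : Fin d →₀ ℕ) (μ : ℤ × ℤ) :
    (coeff v (cls a b)).coeff μ =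
      if μ ∈ roots then coeff v a else if μ = 0 then 2 * coeff v a + coeff v b else 0 := by
  have h1 : coeff v (cls a b) = coeff v a • adjChar + coeff v b • (1 : Lau) := rfl
  rw [h1]
  unfold adjChar
  rw [AddMonoidAlgebra.coeff_add, AddMonoidAlgebra.coeff_smul, AddMonoidAlgebra.coeff_smul,
    AddMonoidAlgebra.coeff_add, AddMonoidAlgebra.coeff_sum]
  simp only [Finsupp.add_apply, Finsupp.smul_apply, Finsupp.coe_finsetSum, Finset.sum_apply]
  have h2 : ∑ α ∈ roots, (ex α).coeff μ = if μ ∈ roots then 1 else 0 := by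
    unfold ex
    simp only [AddMonoidAlgebra.coeff_single, Finsupp.single_apply]
    rw [Finset.sum_ite_eq']
  rw [h2]
  have h3 : (2 : Lau).coeff μ = if μ = 0 then 2 else 0 := by
    have : (2 : Lau) = AddMonoidAlgebra.single 0 2 := by
      rw [AddMonoidAlgebra.ofNat_def]
    rw [this, AddMonoidAlgebra.coeff_single, Finsupp.single_apply]
    simp only [eq_comm]
  have h4 : (1 : Lau).coeff μ = if μ = 0 then 1 else 0 := by
    rw [AddMonoidAlgebra.one_def, AddMonoidAlgebra.coeff_single, Finsupp.single_apply]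
    simp only [eq_comm]
  rw [h3, h4]
  by_cases hr : μ ∈ roots
  · have h0 : μ ≠ 0 := by
      rintro rfl
      exact zero_notMem_roots hr
    simp [hr, h0]
  · by_cases h0 : μ = 0
    · subst h0
      simp only [zero_notMem_roots, if_false, if_true, smul_eq_mul]
      ring
    · simp [hr, h0]

/-- the factor of `v` -/
theorem inner_prod (a b : R d) {v : Fin d →₀ ℕ} (hv : 1 ≤ v.degree) :
    ev (∏ μ ∈ (coeff v (cls a b)).coeff.support,
      ipow (1 - monomial v (ex μ)) ((coeff v (cls a b)).coeff μ)) =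
    ipow (1 - 3 ^ v.degree * et 0) (2 * coeff v a + coeff v b) *
      ∏ α ∈ roots, ipow (1 - 3 ^ v.degree * et α) (coeff v a) := by
  rw [map_prod]
  have h1 : ∏ μ ∈ (coeff v (cls a b)).coeff.support,
      ev (ipow (1 - monomial v (ex μ)) ((coeff v (cls a b)).coeff μ)) =
      ∏ μ ∈ insert 0 roots, ipow (1 - 3 ^ v.degree * et μ) ((coeff v (cls a b)).coeff μ) := by
    simp only [ev_fac hv]
    apply Finset.prod_subset
    · intro μ hμ
      rw [Finsupp.mem_support_iff, coeff_cls] at hμ
      rw [Finset.mem_insert]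
      by_contra hcon
      push Not at hcon
      rw [if_neg hcon.2, if_neg hcon.1] at hμ
      exact hμ rfl
    · intro μ _ hμ
      rw [Finsupp.notMem_support_iff] at hμ
      rw [hμ, ipow_zero]
  rw [h1, Finset.prod_insert zero_notMem_roots]
  have e1 : (coeff v (cls a b)).coeff 0 = 2 * coeff v a + coeff v b := by
    rw [coeff_cls, if_neg zero_notMem_roots, if_pos rfl]
  have e2 : ∏ μ ∈ roots, ipow (1 - 3 ^ v.degree * et μ) ((coeff v (cls a b)).coeff μ) =
      ∏ α ∈ roots, ipow (1 - 3 ^ v.degree * et α) (coeff v a) := by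
    refine Finset.prod_congr rfl fun α hα => ?_
    rw [coeff_cls, if_pos hα]
  rw [e1, e2]

/-- a scalar factor -/
theorem scalar_fac {m : ℕ} (hm : 1 ≤ m) (n : ℤ) :
    ∃ β : Z18, ipow (1 - 3 ^ m * et 0 : T18) n = algebraMap Z18 T18 β := by
  have hu : IsUnit (1 - 3 ^ m : Z18) := by
    apply IsNilpotent.isUnit_one_sub
    refine ⟨18, ?_⟩
    rw [← pow_mul, mul_comm, pow_mul, three_pow_z, zero_pow (by omega)]
  refine ⟨ipow (1 - 3 ^ m) n, ?_⟩
  rw [ipow_map _ hu]
  have h1 : et 0 = 1 := rfl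
  rw [map_sub, map_one, map_pow, map_ofNat, h1, mul_one]

theorem scalar_prod {ι : Type} (s : Finset ι) (f : ι → T18)
    (h : ∀ i ∈ s, ∃ β : Z18, f i = algebraMap Z18 T18 β) :
    ∃ β : Z18, ∏ i ∈ s, f i = algebraMap Z18 T18 β := by
  classical
  choose! g hg using h
  refine ⟨∏ i ∈ s, g i, ?_⟩
  rw [map_prod]
  exact Finset.prod_congr rfl hg

/-- evaluation of `Φ` for `dim V = 2` -/
theorem ev_Phi (a b : R 2) (ha : ∀ m, 1 ≤ m → ∀ v : Fin 2 →₀ ℕ, v.degree = m → 0 ≤ coeff v a)
    (ha2 : ∀ m, 1 ≤ m → ∑ v ∈ Finset.univ.finsuppAntidiag m, coeff v a = 2 ^ m) :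
    ∃ β : Z18, ev (lam (cls a b)) = β • Psi := by
  rw [ev_lam]
  unfold lamProd
  rw [map_prod]
  have h1 : ∀ v ∈ expos 2 17, ev (∏ μ ∈ (coeff v (cls a b)).coeff.support,
      ipow (1 - monomial v (ex μ)) ((coeff v (cls a b)).coeff μ)) =
      ipow (1 - 3 ^ v.degree * et 0) (2 * coeff v a + coeff v b) *
      ∏ α ∈ roots, ipow (1 - 3 ^ v.degree * et α) (coeff v a) := by
    intro v hv
    rw [mem_expos] at hv
    exact inner_prod a b hv.1
  rw [Finset.prod_congr rfl h1, Finset.prod_mul_distrib]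
  obtain ⟨β, hβ⟩ := scalar_prod (expos 2 17)
    (fun v => ipow (1 - 3 ^ v.degree * et 0) (2 * coeff v a + coeff v b)) (by
      intro v hv
      rw [mem_expos] at hv
      exact scalar_fac hv.1 _)
  refine ⟨β, ?_⟩
  rw [hβ, Algebra.smul_def, Finset.prod_comm]
  have h2 : ∀ α : ℤ × ℤ, ∏ v ∈ expos 2 17, ipow (1 - 3 ^ v.degree * et α) (coeff v a) = FF α := by
    intro α
    rw [← prod_eq_FF]
    unfold expos
    rw [Finset.prod_biUnion]
    · refine Finset.prod_congr rfl fun m hm => ?_
      rw [Finset.mem_Icc] at hm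
      have h3 : ∀ v ∈ (Finset.univ : Finset (Fin 2)).finsuppAntidiag m,
          ipow (1 - 3 ^ v.degree * et α) (coeff v a) =
          (1 - 3 ^ m * et α) ^ (coeff v a).toNat := by
        intro v hv
        rw [mem_fsa] at hv
        rw [hv]
        conv_lhs => rw [← Int.toNat_of_nonneg (ha m hm.1 v hv)]
        rw [ipow_nat]
      have h6 : ∑ v ∈ (Finset.univ : Finset (Fin 2)).finsuppAntidiag m, (coeff v a).toNat =
          2 ^ m := by
        have h4 := ha2 m hm.1
        zify
        rw [← h4]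
        refine Finset.sum_congr rfl fun v hv => ?_
        rw [mem_fsa] at hv
        exact Int.toNat_of_nonneg (ha m hm.1 v hv)
      rw [Finset.prod_congr rfl h3, Finset.prod_pow_eq_pow_sum, h6]
    · intro m _ n _ hmn
      simp only [Function.onFun]
      rw [Finset.disjoint_left]
      intro v hv hv2
      rw [mem_fsa] at hv hv2
      exact hmn (hv.symm.trans hv2)
  have h5 : ∏ α ∈ roots, ∏ v ∈ expos 2 17, ipow (1 - 3 ^ v.degree * et α) (coeff v a) = Psi := by
    rw [Finset.prod_congr rfl (fun α _ => h2 α)]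
    unfold roots Psi
    rw [Finset.prod_insert (by decide), Finset.prod_insert (by decide),
      Finset.prod_insert (by decide), Finset.prod_insert (by decide),
      Finset.prod_insert (by decide), Finset.prod_singleton]
    simp only [Prod.neg_mk, neg_zero, mul_assoc]
  rw [h5]

/-- the multiplicity functionals are compatible with the evaluation -/
theorem mt_ev (μ : ℤ × ℤ) (x : RK d) :
    mt μ (ev x) = ∑ w ∈ low d, 3 ^ w.degree * ((coeff w (coefL μ x) : ℤ) : Z18) := by
  unfold mt
  rw [ev_apply, Finset.sum_mul, AddMonoidAlgebra.coeff_sum, Finsupp.coe_finsetSum,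
    Finset.sum_apply]
  refine Finset.sum_congr rfl fun w _ => ?_
  have h1 : coeff w (coefL μ x) = mult μ (coeff w x) := rfl
  rw [h1]
  unfold mult
  rw [← bc_coeff]
  have h2 : (3 ^ w.degree : T18) = algebraMap Z18 T18 (3 ^ w.degree) := by
    rw [map_pow, map_ofNat]
  rw [h2, ← Algebra.smul_def, smul_mul_assoc, AddMonoidAlgebra.coeff_smul_apply, smul_eq_mul]
  congr 2
  rw [map_mul, map_mul, map_mul, map_sub, map_sub, map_sub, map_one, bc_ex, bc_ex, bc_ex]

theorem not_pair (a b : R 2) (ha : ∀ m, 1 ≤ m → ∀ v : Fin 2 →₀ ℕ, v.degree = m → 0 ≤ coeff v a)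
    (ha2 : ∀ m, 1 ≤ m → ∑ v ∈ Finset.univ.finsuppAntidiag m, coeff v a = 2 ^ m) :
    ¬ IsShangPair a b := by
  classical
  rintro ⟨_, _, h0, h1⟩
  obtain ⟨β, hβ⟩ := ev_Phi a b ha ha2
  refine no_scalar β ?_ ?_
  · rw [← hβ, mt_ev, h0, Finset.sum_eq_single_of_mem 0]
    · simp
    · rw [mem_low]; simp
    · intro w _ hw
      rw [coeff_one, if_neg hw]
      simp
  · rw [← hβ, mt_ev, h1]
    have h2 : ∀ i : Fin 2, ∑ w ∈ low 2, (3 : Z18) ^ w.degree *
        ((coeff w (X i : R 2) : ℤ) : Z18) = 3 := by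
      intro i
      rw [Finset.sum_eq_single_of_mem (Finsupp.single i 1)]
      · rw [coeff_index_single_self_X]
        simp
      · rw [mem_low]; simp
      · intro w _ hw
        rw [coeff_X, if_neg hw]
        simp
    simp only [map_neg, Fin.sum_univ_two, map_add, Int.cast_neg, Int.cast_add, mul_neg,
      mul_add, Finset.sum_neg_distrib, Finset.sum_add_distrib, h2]
    norm_num

end Pool.Agent.U691.Shang
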