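import Mathlib

/-!
# Shang's character formula for free alternative algebras: definitions

`GL(V)`, `dim V = d`, acts on the free alternative algebra `Alt(V)`; classes in the completed
Grothendieck ring of polynomial `GL(V)`-modules are given by their formal characters, which are
power series in `d` variables with integer coefficients.  Classes of `PSL₃`-modules are given by
their characters, which are integral combinations of the `e^μ`, `μ` in the root lattice.
-/

set_option autoImplicit false

namespace Pool.Agent.U691.Shang

open MvPowerSeries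

/-- Integral combinations of the symbols `e^μ`, where `μ = (i, j)` stands for the element
`i α₁ + j α₂` of the root lattice of `SL₃`: the home of the characters of `PSL₃`-modules. -/
abbrev Lau : Type := AddMonoidAlgebra ℤ (ℤ × ℤ)

/-- `e^μ` -/
noncomputable def ex (μ : ℤ × ℤ) : Lau := AddMonoidAlgebra.single μ 1

/-- the six roots `±α₁, ±α₂, ±(α₁ + α₂)` -/
def roots : Finset (ℤ × ℤ) := {(1, 0), (-1, 0), (0, 1), (0, -1), (1, 1), (-1, -1)}

/-- the character of the adjoint module `L(α₁ + α₂)` of `PSL₃`: each root has multiplicity one and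
the weight `0` has multiplicity two -/
noncomputable def adjChar : Lau := 2 + ∑ α ∈ roots, ex α

/-- The multiplicity of the irreducible module `L(μ)` in a (virtual) `PSL₃`-module with
character `f`, by Weyl's character formula: the coefficient of `e^μ` in
`f (1 - e^(-α₁)) (1 - e^(-α₂)) (1 - e^(-α₁-α₂))`. -/
noncomputable def mult (μ : ℤ × ℤ) (f : Lau) : ℤ :=
  (f * ((1 - ex (-1, 0)) * (1 - ex (0, -1)) * (1 - ex (-1, -1)))).coeff μ

/-- Formal characters of graded virtual `GL(V)`-modules, `dim V = d` (completed Grothendieck
ring of the polynomial `GL(V)`-modules). -/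
abbrev R (d : ℕ) : Type := MvPowerSeries (Fin d) ℤ

/-- Formal characters of graded virtual `GL(V) × PSL₃`-modules. -/
abbrev RK (d : ℕ) : Type := MvPowerSeries (Fin d) Lau

/-- the class `a [L(α₁ + α₂)] + b [L(0)]` -/
noncomputable def cls {d : ℕ} (a b : R d) : RK d :=
  fun w => coeff w a • adjChar + coeff w b • (1 : Lau)

/-- `[x : [L(μ)]]`, the coefficient of `[L(μ)]` in `x`, an element of `R d` -/
noncomputable def coefL {d : ℕ} (μ : ℤ × ℤ) (x : RK d) : R d :=
  fun w => mult μ (coeff w x)

/-- the power `u ^ n` with an integral exponent, for a unit `u` of a commutative ring -/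
noncomputable def ipow {A : Type} [CommRing A] (u : A) : ℤ → A
  | Int.ofNat n => u ^ n
  | Int.negSucc n => Ring.inverse u ^ (n + 1)

/-- the exponents `v` of total degree `1, …, n` -/
def expos (d n : ℕ) : Finset (Fin d →₀ ℕ) :=
  (Finset.Icc 1 n).biUnion fun m => Finset.univ.finsuppAntidiag m

/-- the product of the factors `(1 - x^v e^μ)^(m(v, μ))`, where `m(v, μ)` is the coefficient of
`x^v e^μ` in `X`, over all `v` of total degree `1, …, n` and all `μ` -/
noncomputable def lamProd {d : ℕ} (X : RK d) (n : ℕ) : RK d :=
  ∏ v ∈ expos d n, ∏ μ ∈ (coeff v X).coeff.support,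
    ipow (1 - monomial v (ex μ)) ((coeff v X).coeff μ)

/-- The operation `λ` on classes without constant term:
`λ(∑ m(v, μ) x^v e^μ) = ∏ (1 - x^v e^μ)^(m(v, μ))`, which is `∑ (-1)^k [Λ^k U]` for the class of a
module `U`.  The coefficient of `x^w` in this infinite product is that of the product of the
factors with `v` of total degree at most that of `w`. -/
noncomputable def lam {d : ℕ} (X : RK d) : RK d := fun w => coeff w (lamProd X w.degree)

/-- `(a, b)` satisfies the equations which define the pair `(a(V), b(V))`, `dim V = d`: both are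
in the augmentation ideal and `Φ = λ(a [L(α₁ + α₂)] + b [L(0)])` has `[Φ : [L(0)]] = 1` and
`[Φ : [L(α₁ + α₂)]] = - [V]`. -/
def IsShangPair {d : ℕ} (a b : R d) : Prop :=
  constantCoeff a = 0 ∧ constantCoeff b = 0 ∧
    coefL (0, 0) (lam (cls a b)) = 1 ∧ coefL (1, 1) (lam (cls a b)) = - ∑ i, X i

section Alt

variable (F : Type) [Field F] (d : ℕ)

/-- The kernel of the map from the free nonassociative algebra (without unit) on `x₁, …, x_d` onto
the free alternative algebra: the smallest two-sided ideal which contains all
`(aa)b - a(ab)` and `(ba)a - b(aa)`. -/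
noncomputable def altKer : Submodule F (MonoidAlgebra F (FreeMagma (Fin d))) :=
  sInf {I | (∀ a b : MonoidAlgebra F (FreeMagma (Fin d)),
      (a * a) * b - a * (a * b) ∈ I ∧ (b * a) * a - b * (a * a) ∈ I) ∧
    ∀ a : MonoidAlgebra F (FreeMagma (Fin d)), ∀ x ∈ I, a * x ∈ I ∧ x * a ∈ I}

/-- the free alternative algebra `Alt(V)` without unit, `V` with basis `x₁, …, x_d` -/
abbrev FreeAlt : Type := MonoidAlgebra F (FreeMagma (Fin d)) ⧸ altKer F d

/-- the multidegree of a nonassociative monomial -/
noncomputable def mdeg {d : ℕ} : FreeMagma (Fin d) → (Fin d →₀ ℕ)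
  | FreeMagma.of i => Finsupp.single i 1
  | FreeMagma.mul a b => mdeg a + mdeg b

/-- the weight space of multidegree `w` of `Alt(V)`: the span of the monomials of
multidegree `w` -/
noncomputable def altWt (w : Fin d →₀ ℕ) : Submodule F (FreeAlt F d) :=
  Submodule.span F {y | ∃ m : FreeMagma (Fin d), mdeg m = w ∧
    y = (altKer F d).mkQ (MonoidAlgebra.single m 1)}

/-- the class `[Alt(V)]`: the formal character `∑_w dim Alt(V)_w x^w` -/
noncomputable def chAlt : R d := fun w => (Module.finrank F (altWt F d w) : ℤ)

end Alt

end Pool.Agent.U691.Shang
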