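import Pool.Agent.U691.Shang.Defs
import Pool.Agent.U691.Shang.Num

/-!
# Evaluation of characters at `x_i = 3` modulo `3^18`
-/

set_option autoImplicit false

namespace Pool.Agent.U691.Shang

open MvPowerSeries

variable {d : ℕ}

/-- the exponents of degree less than `18` -/
def low (d : ℕ) : Finset (Fin d →₀ ℕ) :=
  (Finset.range 18).biUnion fun m => Finset.univ.finsuppAntidiag m

theorem mem_fsa {m : ℕ} {w : Fin d →₀ ℕ} :
    w ∈ (Finset.univ : Finset (Fin d)).finsuppAntidiag m ↔ w.degree = m := by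
  rw [Finset.mem_finsuppAntidiag]
  rw [Finsupp.degree_eq_sum]
  simp

theorem mem_low {w : Fin d →₀ ℕ} : w ∈ low d ↔ w.degree < 18 := by
  unfold low
  simp only [Finset.mem_biUnion, Finset.mem_range, mem_fsa]
  constructor
  · rintro ⟨m, hm, rfl⟩; exact hm
  · intro h; exact ⟨_, h, rfl⟩

theorem mem_expos {n : ℕ} {w : Fin d →₀ ℕ} : w ∈ expos d n ↔ 1 ≤ w.degree ∧ w.degree ≤ n := by
  unfold expos
  simp only [Finset.mem_biUnion, Finset.mem_Icc, mem_fsa]
  constructor
  · rintro ⟨m, hm, rfl⟩; exact hm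
  · intro h; exact ⟨_, h, rfl⟩

/-- base change of group rings -/
noncomputable def bc : Lau →+* T18 := AddMonoidAlgebra.mapRingHom (ℤ × ℤ) (Int.castRingHom Z18)

theorem bc_ex (μ : ℤ × ℤ) : bc (ex μ) = et μ := by
  unfold bc ex et
  simp

theorem bc_coeff (f : Lau) (μ : ℤ × ℤ) : (bc f).coeff μ = (f.coeff μ : Z18) := by
  unfold bc
  simp

theorem three_pow : (3 : T18) ^ 18 = 0 := by
  have := M18
  have h : ((MM : ℕ) : T18) = 3 ^ 18 := by norm_num
  rwa [h] at this

theorem three_pow_z : (3 : Z18) ^ 18 = 0 := by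
  have : ((MM : ℕ) : Z18) = 0 := ZMod.natCast_self MM
  have h : ((MM : ℕ) : Z18) = 3 ^ 18 := by norm_num
  rwa [h] at this

theorem three_pow_ge {n : ℕ} (h : 18 ≤ n) : (3 : T18) ^ n = 0 := by
  obtain ⟨k, rfl⟩ := Nat.exists_eq_add_of_le h
  rw [pow_add, three_pow, zero_mul]

/-- evaluation -/
noncomputable def evs (f : RK d) : T18 := ∑ w ∈ low d, 3 ^ w.degree * bc (coeff w f)

theorem evs_mul (f g : RK d) : evs (f * g) = evs f * evs g := by
  classical
  unfold evs
  rw [Finset.sum_mul_sum, ← Finset.sum_product']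
  set h : (Fin d →₀ ℕ) × (Fin d →₀ ℕ) → T18 := fun p =>
    3 ^ p.1.degree * bc (coeff p.1 f) * (3 ^ p.2.degree * bc (coeff p.2 g)) with hh
  have h1 : ∀ w ∈ low d, 3 ^ w.degree * bc (coeff w (f * g)) =
      ∑ p ∈ ((low d ×ˢ low d).filter fun p => p.1 + p.2 ∈ low d).filter (fun p => p.1 + p.2 = w),
        h p := by
    intro w hw
    have h2 : (((low d ×ˢ low d).filter fun p => p.1 + p.2 ∈ low d).filter
        (fun p => p.1 + p.2 = w)) = Finset.HasAntidiagonal.antidiagonal w := by
      ext p
      simp only [Finset.mem_filter, Finset.mem_product, Finset.HasAntidiagonal.mem_antidiagonal, mem_low]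
      rw [mem_low] at hw
      constructor
      · intro hp; exact hp.2
      · intro hp
        have h3 : p.1.degree + p.2.degree = w.degree := by rw [← hp, map_add]
        rw [hp]
        refine ⟨⟨⟨?_, ?_⟩, ?_⟩, rfl⟩ <;> omega
    rw [h2, coeff_mul, map_sum, Finset.mul_sum]
    refine Finset.sum_congr rfl fun p hp => ?_
    rw [Finset.HasAntidiagonal.mem_antidiagonal] at hp
    rw [hh, ← hp, map_mul, map_add, pow_add]
    ring
  rw [Finset.sum_congr rfl h1, Finset.sum_fiberwise_of_maps_to]
  · refine Finset.sum_subset (Finset.filter_subset _ _) ?_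
    intro p hp hp2
    rw [Finset.mem_filter, not_and] at hp2
    have h3 := hp2 hp
    rw [mem_low, map_add, not_lt] at h3
    rw [hh]
    calc 3 ^ p.1.degree * bc (coeff p.1 f) * (3 ^ p.2.degree * bc (coeff p.2 g))
        = 3 ^ (p.1.degree + p.2.degree) * (bc (coeff p.1 f) * bc (coeff p.2 g)) := by
          rw [pow_add]; ring
      _ = 0 := by rw [three_pow_ge h3, zero_mul]
  · intro p hp
    rw [Finset.mem_filter] at hp
    exact hp.2

/-- evaluation as a ring homomorphism -/
noncomputable def ev : RK d →+* T18 where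
  toFun := evs
  map_mul' := evs_mul
  map_one' := by
    classical
    unfold evs
    rw [Finset.sum_eq_single_of_mem 0]
    · simp
    · rw [mem_low]; simp
    · intro w _ hw
      rw [coeff_one, if_neg hw, map_zero, mul_zero]
  map_zero' := by
    unfold evs
    simp
  map_add' f g := by
    unfold evs
    rw [← Finset.sum_add_distrib]
    refine Finset.sum_congr rfl fun w _ => ?_
    rw [map_add, map_add, mul_add]

theorem ev_apply (f : RK d) : ev f = ∑ w ∈ low d, 3 ^ w.degree * bc (coeff w f) := rfl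

theorem ev_monomial (v : Fin d →₀ ℕ) (t : Lau) : ev (monomial v t) = 3 ^ v.degree * bc t := by
  classical
  rw [ev_apply]
  by_cases hv : v ∈ low d
  · rw [Finset.sum_eq_single_of_mem v hv]
    · rw [coeff_monomial_same]
    · intro w _ hw
      rw [coeff_monomial_ne hw, map_zero, mul_zero]
  · rw [mem_low, not_lt] at hv
    rw [three_pow_ge hv, zero_mul]
    refine Finset.sum_eq_zero fun w hw => ?_
    rw [coeff_monomial_ne, map_zero, mul_zero]
    rintro rfl
    rw [mem_low] at hw
    omega

/-! ### integral powers -/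

theorem ipow_map {A B : Type} [CommRing A] [CommRing B] (φ : A →+* B) {u : A} (hu : IsUnit u)
    (n : ℤ) : φ (ipow u n) = ipow (φ u) n := by
  cases n with
  | ofNat n => simp [ipow]
  | negSucc n =>
    simp only [ipow]
    rw [map_pow]
    congr 1
    obtain ⟨x, rfl⟩ := hu
    rw [Ring.inverse_unit]
    have : φ (x : A) = ((Units.map (φ : A →* B) x : Bˣ) : B) := rfl
    rw [this, Ring.inverse_unit, ← map_inv]
    rfl

theorem ipow_one {A : Type} [CommRing A] (n : ℤ) : ipow (1 : A) n = 1 := by
  cases n with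
  | ofNat n => simp [ipow]
  | negSucc n => simp [ipow]

theorem ipow_zero {A : Type} [CommRing A] (u : A) : ipow u 0 = 1 := by
  show ipow u (Int.ofNat 0) = 1
  simp [ipow]

theorem ipow_nat {A : Type} [CommRing A] (u : A) (n : ℕ) : ipow u (n : ℤ) = u ^ n := rfl

theorem isUnit_fac {v : Fin d →₀ ℕ} (hv : 1 ≤ v.degree) (t : Lau) :
    IsUnit (1 - monomial v t : RK d) := by
  rw [MvPowerSeries.isUnit_iff_constantCoeff]
  rw [map_sub, map_one]
  have : constantCoeff (monomial v t : RK d) = 0 := by
    rw [← coeff_zero_eq_constantCoeff_apply]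
    apply coeff_monomial_ne
    rintro rfl
    simp at hv
  rw [this, sub_zero]
  exact isUnit_one

end Pool.Agent.U691.Shang
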