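import Pool.Agent.U691.Shang.Main

/-!
# Existence and uniqueness of the pair `(a(V), b(V))`
-/

set_option autoImplicit false

namespace Pool.Agent.U691.Shang

open MvPowerSeries

variable {d : ℕ}

theorem ipow_one_sub {A : Type} [CommRing A] {m : A} (h : m * m = 0) (k : ℤ) :
    ipow (1 - m) k = 1 - k * m := by
  cases k with
  | ofNat n =>
    show (1 - m) ^ n = 1 - ((n : ℤ) : A) * m
    induction n with
    | zero => simp
    | succ n ih =>
      rw [pow_succ, ih]
      push_cast
      linear_combination (n : A) * h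
  | negSucc n =>
    show Ring.inverse (1 - m) ^ (n + 1) = 1 - ((Int.negSucc n : ℤ) : A) * m
    have h1 : (1 - m) * (1 + m) = 1 := by linear_combination -h
    have h2 : Ring.inverse (1 - m) = 1 + m := by
      have : ((⟨1 - m, 1 + m, h1, by rw [mul_comm, h1]⟩ : Aˣ) : A) = 1 - m := rfl
      rw [← this, Ring.inverse_unit]
      rfl
    rw [h2]
    have h3 : ∀ k : ℕ, (1 + m) ^ k = 1 + k * m := by
      intro k
      induction k with
      | zero => simp
      | succ n ih =>
        rw [pow_succ, ih]
        push_cast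
        linear_combination (n : A) * h
    rw [h3, Int.cast_negSucc]
    ring

theorem prod_one_sub {A ι : Type} [CommRing A] (s : Finset ι) (f : ι → A)
    (h : ∀ i ∈ s, ∀ j ∈ s, f i * f j = 0) : ∏ i ∈ s, (1 - f i) = 1 - ∑ i ∈ s, f i := by
  classical
  induction s using Finset.induction_on with
  | empty => simp
  | insert a s ha ih =>
    rw [Finset.prod_insert ha, Finset.sum_insert ha, ih fun i hi j hj =>
      h i (Finset.mem_insert_of_mem hi) j (Finset.mem_insert_of_mem hj)]
    have : f a * ∑ i ∈ s, f i = 0 := by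
      rw [Finset.mul_sum]
      exact Finset.sum_eq_zero fun i hi => h a (Finset.mem_insert_self a s) i
        (Finset.mem_insert_of_mem hi)
    linear_combination this

theorem mem_hi {n : ℕ} {f : RK d} :
    f ∈ hiIdeal d n ↔ ∀ w : Fin d →₀ ℕ, w.degree ≤ n → coeff w f = 0 := Iff.rfl

theorem mono_mul_mono {n : ℕ} {v v' : Fin d →₀ ℕ} (hv : v.degree = n + 1)
    (hv' : v'.degree = n + 1) (s t : Lau) :
    Ideal.Quotient.mk (hiIdeal d (n + 1)) (monomial v s) *
      Ideal.Quotient.mk (hiIdeal d (n + 1)) (monomial v' t) = 0 := by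
  rw [← map_mul, monomial_mul_monomial, Ideal.Quotient.eq_zero_iff_mem, mem_hi]
  intro w hw
  apply coeff_monomial_ne
  rintro rfl
  rw [map_add] at hw
  omega

theorem sum_support (f : Lau) : ∑ μ ∈ f.coeff.support, (f.coeff μ) • ex μ = f := by
  unfold ex
  conv_rhs => rw [← AddMonoidAlgebra.sum_coeff_single f]
  unfold Finsupp.sum
  refine Finset.sum_congr rfl fun μ _ => ?_
  rw [AddMonoidAlgebra.smul_single, smul_eq_mul, mul_one]

theorem mk_new (X : RK d) (n : ℕ) : Ideal.Quotient.mk (hiIdeal d (n + 1))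
    (∏ v ∈ Finset.univ.finsuppAntidiag (n + 1), ∏ μ ∈ (coeff v X).coeff.support,
      ipow (1 - monomial v (ex μ)) ((coeff v X).coeff μ)) =
    1 - ∑ v ∈ Finset.univ.finsuppAntidiag (n + 1),
      Ideal.Quotient.mk (hiIdeal d (n + 1)) (monomial v (coeff v X)) := by
  rw [map_prod, ← prod_one_sub]
  · refine Finset.prod_congr rfl fun v hv => ?_
    rw [mem_fsa] at hv
    rw [map_prod]
    have h1 : ∀ μ ∈ (coeff v X).coeff.support, Ideal.Quotient.mk (hiIdeal d (n + 1))
        (ipow (1 - monomial v (ex μ)) ((coeff v X).coeff μ)) =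
        1 - Ideal.Quotient.mk (hiIdeal d (n + 1))
          (monomial v ((coeff v X).coeff μ • ex μ)) := by
      intro μ _
      rw [ipow_map _ (isUnit_fac (by omega) _), map_sub, map_one,
        ipow_one_sub (mono_mul_mono hv hv _ _)]
      congr 1
      rw [map_zsmul (monomial v), map_zsmul, zsmul_eq_mul]
    rw [Finset.prod_congr rfl h1, prod_one_sub]
    · rw [← map_sum, ← map_sum, sum_support]
    · intro μ _ ν _
      exact mono_mul_mono hv hv _ _
  · intro v hv v' hv'
    rw [mem_fsa] at hv hv'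
    exact mono_mul_mono hv hv' _ _

theorem constantCoeff_lamProd (X : RK d) (n : ℕ) : coeff 0 (lamProd X n) = 1 := by
  rw [coeff_lamProd X 0 n (by simp)]
  have : expos d (0 : Fin d →₀ ℕ).degree = ∅ := by
    ext w
    rw [mem_expos]
    simp
    omega
  unfold lamProd
  rw [this, Finset.prod_empty, coeff_zero_one]

theorem mk_mul_mono {n : ℕ} (f : RK d) (hf : coeff 0 f = 1) {v : Fin d →₀ ℕ}
    (hv : v.degree = n + 1) (t : Lau) :
    Ideal.Quotient.mk (hiIdeal d (n + 1)) (f * monomial v t) =
      Ideal.Quotient.mk (hiIdeal d (n + 1)) (monomial v t) := by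
  classical
  rw [Ideal.Quotient.eq, mem_hi]
  intro w hw
  rw [map_sub, coeff_mul_monomial, coeff_monomial]
  split_ifs with h1 h2 h2
  · subst h2
    rw [tsub_self, hf, one_mul, sub_self]
  · exfalso
    obtain ⟨u, rfl⟩ := exists_add_of_le h1
    rw [map_add] at hw
    have h3 : u.degree = 0 := by omega
    rw [Finsupp.degree_eq_zero_iff] at h3
    subst h3
    exact h2 (add_zero v)
  · subst h2
    exact absurd le_rfl h1
  · simp

theorem coeff_lamProd_succ (X : RK d) (n : ℕ) {w : Fin d →₀ ℕ} (hw : w.degree = n + 1) :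
    coeff w (lamProd X (n + 1)) = coeff w (lamProd X n) - coeff w X := by
  have h : Ideal.Quotient.mk (hiIdeal d (n + 1)) (lamProd X (n + 1)) =
      Ideal.Quotient.mk (hiIdeal d (n + 1)) (lamProd X n -
        ∑ v ∈ Finset.univ.finsuppAntidiag (n + 1), monomial v (coeff v X)) := by
    rw [lamProd_succ, map_mul, mk_new, mul_sub, mul_one, map_sub, Finset.mul_sum]
    congr 1
    rw [map_sum]
    refine Finset.sum_congr rfl fun v hv => ?_
    rw [mem_fsa] at hv
    rw [← map_mul, mk_mul_mono _ (constantCoeff_lamProd X n) hv]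
  rw [Ideal.Quotient.eq, mem_hi] at h
  have h2 := h w (by omega)
  rw [map_sub, map_sub, sub_eq_zero] at h2
  rw [h2, map_sum, Finset.sum_eq_single_of_mem w (by rw [mem_fsa]; exact hw)]
  · rw [coeff_monomial_same]
  · intro v _ hvw
    exact coeff_monomial_ne (Ne.symm hvw) _

theorem mult_sub (μ : ℤ × ℤ) (f g : Lau) : mult μ (f - g) = mult μ f - mult μ g := by
  unfold mult
  rw [sub_mul, AddMonoidAlgebra.coeff_sub, Finsupp.sub_apply]

theorem weyl_eq : (1 - ex (-1, 0)) * (1 - ex (0, -1)) * (1 - ex (-1, -1)) =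
      (1 - ex (-1, 0) - ex (0, -1) + ex (-2, -1) + ex (-1, -2) - ex (-2, -2) : Lau) := by
  have hm : ∀ μ ν : ℤ × ℤ, ex μ * ex ν = ex (μ + ν) := by
    intro μ ν
    unfold ex
    rw [AddMonoidAlgebra.single_mul_single, one_mul]
  have e1 : ex (-1, 0) * ex (0, -1) = ex (-1, -1) := by rw [hm]; rfl
  have e2 : ex (-1, 0) * ex (-1, -1) = ex (-2, -1) := by rw [hm]; rfl
  have e3 : ex (0, -1) * ex (-1, -1) = ex (-1, -2) := by rw [hm]; rfl
  have e4 : ex (-1, -1) * ex (-1, -1) = ex (-2, -2) := by rw [hm]; rfl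
  linear_combination (1 - ex (-1, -1)) * e1 - (-1 : Lau) * e2 - (-1 : Lau) * e3 - e4

theorem mult_eq (i j : ℤ) (f : Lau) : mult (i, j) f = f.coeff (i, j) - f.coeff (i + 1, j)
    - f.coeff (i, j + 1) + f.coeff (i + 2, j + 1) + f.coeff (i + 1, j + 2)
    - f.coeff (i + 2, j + 2) := by
  unfold mult
  rw [weyl_eq]
  simp only [mul_add, mul_sub, mul_one, AddMonoidAlgebra.coeff_add, AddMonoidAlgebra.coeff_sub,
    Finsupp.coe_add, Finsupp.coe_sub, Pi.add_apply, Pi.sub_apply]
  unfold ex
  simp only [AddMonoidAlgebra.coeff_mul_single_apply, mul_one]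
  simp only [Prod.neg_mk, neg_neg, Prod.mk_add_mk, neg_zero, add_zero]

theorem mult_cls (a b : R d) (w : Fin d →₀ ℕ) :
    mult (0, 0) (coeff w (cls a b)) = coeff w b ∧
      mult (1, 1) (coeff w (cls a b)) = coeff w a := by
  rw [mult_eq, mult_eq]
  simp only [coeff_cls]
  unfold roots
  constructor
  · simp
    ring
  · simp

theorem mult_one : mult (0, 0) 1 = 1 ∧ mult (1, 1) 1 = 0 := by
  rw [mult_eq, mult_eq, AddMonoidAlgebra.one_def]
  simp only [AddMonoidAlgebra.coeff_single, Finsupp.single_apply]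
  constructor <;> decide

/-- the class `[V]` -/
noncomputable def VV (d : ℕ) : R d := ∑ i, X i

theorem coeff_VV (w : Fin d →₀ ℕ) (hw : w.degree ≠ 1) : coeff w (VV d) = 0 := by
  classical
  unfold VV
  rw [map_sum]
  refine Finset.sum_eq_zero fun i _ => ?_
  rw [coeff_X, if_neg]
  rintro rfl
  simp at hw

/-- the equations, degree by degree -/
theorem pair_iff (a b : R d) : IsShangPair a b ↔ coeff 0 a = 0 ∧ coeff 0 b = 0 ∧
    ∀ (n : ℕ) (w : Fin d →₀ ℕ), w.degree = n + 1 →
      coeff w b = mult (0, 0) (coeff w (lamProd (cls a b) n)) ∧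
      coeff w a = mult (1, 1) (coeff w (lamProd (cls a b) n)) + coeff w (VV d) := by
  classical
  unfold IsShangPair
  rw [coeff_zero_eq_constantCoeff_apply, coeff_zero_eq_constantCoeff_apply]
  refine and_congr_right fun ha => and_congr_right fun hb => ?_
  have key : ∀ (n : ℕ) (w : Fin d →₀ ℕ), w.degree = n + 1 →
      coeff w (coefL (0, 0) (lam (cls a b))) =
        mult (0, 0) (coeff w (lamProd (cls a b) n)) - coeff w b ∧
      coeff w (coefL (1, 1) (lam (cls a b))) =
        mult (1, 1) (coeff w (lamProd (cls a b) n)) - coeff w a := by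
    intro n w hw
    have h1 : ∀ μ, coeff w (coefL μ (lam (cls a b))) =
        mult μ (coeff w (lamProd (cls a b) w.degree)) := fun μ => rfl
    rw [h1, h1, hw, coeff_lamProd_succ _ _ hw, mult_sub, mult_sub, (mult_cls a b w).1,
      (mult_cls a b w).2]
    exact ⟨rfl, rfl⟩
  constructor
  · rintro ⟨h0, h1⟩ n w hw
    obtain ⟨k0, k1⟩ := key n w hw
    rw [h0, coeff_one, if_neg] at k0
    · rw [h1] at k1
      constructor
      · linarith
      · have : coeff w (-∑ i, X i : R d) = - coeff w (VV d) := by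
          rw [map_neg]; rfl
        rw [this] at k1
        linarith
    · rintro rfl
      simp at hw
  · intro h
    have hz : ∀ μ, coeff (0 : Fin d →₀ ℕ) (coefL μ (lam (cls a b))) = mult μ 1 := by
      intro μ
      have h1 : coeff (0 : Fin d →₀ ℕ) (coefL μ (lam (cls a b))) =
        mult μ (coeff 0 (lamProd (cls a b) (0 : Fin d →₀ ℕ).degree)) := rfl
      rw [h1, constantCoeff_lamProd]
    constructor
    · ext w
      by_cases hw : w = 0
      · subst hw
        rw [hz, mult_one.1, coeff_one, if_pos rfl]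
      · have hd : w.degree ≠ 0 := fun h => hw ((Finsupp.degree_eq_zero_iff w).1 h)
        obtain ⟨n, hn⟩ := Nat.exists_eq_succ_of_ne_zero hd
        rw [(key n w hn).1, (h n w hn).1, sub_self, coeff_one, if_neg hw]
    · ext w
      have e1 : coeff w (-∑ i, X i : R d) = - coeff w (VV d) := by
        rw [map_neg]; rfl
      rw [e1]
      by_cases hw : w = 0
      · subst hw
        rw [hz, mult_one.2, coeff_VV _ (by simp), neg_zero]
      · have hd : w.degree ≠ 0 := fun h => hw ((Finsupp.degree_eq_zero_iff w).1 h)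
        obtain ⟨n, hn⟩ := Nat.exists_eq_succ_of_ne_zero hd
        rw [(key n w hn).2, (h n w hn).2]
        ring

theorem lamProd_congr {a b a' b' : R d} (n : ℕ)
    (h : ∀ v : Fin d →₀ ℕ, 1 ≤ v.degree → v.degree ≤ n →
      coeff v a = coeff v a' ∧ coeff v b = coeff v b') :
    lamProd (cls a b) n = lamProd (cls a' b') n := by
  unfold lamProd
  refine Finset.prod_congr rfl fun v hv => ?_
  rw [mem_expos] at hv
  have : coeff v (cls a b) = coeff v (cls a' b') := by
    show coeff v a • adjChar + coeff v b • (1 : Lau) = coeff v a' • adjChar + coeff v b' • (1 : Lau)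
    rw [(h v hv.1 hv.2).1, (h v hv.1 hv.2).2]
  rw [this]

/-- the approximations -/
noncomputable def appr (d : ℕ) : ℕ → R d × R d
  | 0 => (0, 0)
  | n + 1 => (fun w => if w.degree = n + 1 then
        mult (1, 1) (coeff w (lamProd (cls (appr d n).1 (appr d n).2) n)) + coeff w (VV d)
        else coeff w (appr d n).1,
      fun w => if w.degree = n + 1 then
        mult (0, 0) (coeff w (lamProd (cls (appr d n).1 (appr d n).2) n))
        else coeff w (appr d n).2)

theorem appr_succ1 (n : ℕ) (w : Fin d →₀ ℕ) : coeff w (appr d (n + 1)).1 =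
    if w.degree = n + 1 then
      mult (1, 1) (coeff w (lamProd (cls (appr d n).1 (appr d n).2) n)) + coeff w (VV d)
    else coeff w (appr d n).1 := rfl

theorem appr_succ2 (n : ℕ) (w : Fin d →₀ ℕ) : coeff w (appr d (n + 1)).2 =
    if w.degree = n + 1 then
      mult (0, 0) (coeff w (lamProd (cls (appr d n).1 (appr d n).2) n))
    else coeff w (appr d n).2 := rfl

theorem appr_stable (w : Fin d →₀ ℕ) (k : ℕ) :
    coeff w (appr d (w.degree + k)).1 = coeff w (appr d w.degree).1 ∧
      coeff w (appr d (w.degree + k)).2 = coeff w (appr d w.degree).2 := by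
  induction k with
  | zero => exact ⟨rfl, rfl⟩
  | succ k ih =>
    rw [← add_assoc, appr_succ1, appr_succ2, if_neg (by omega), if_neg (by omega)]
    exact ih

/-- the pair `(a(V), b(V))` exists -/
theorem exists_pair (d : ℕ) : ∃ a b : R d, IsShangPair a b := by
  let a : R d := fun w => coeff w (appr d w.degree).1
  let b : R d := fun w => coeff w (appr d w.degree).2
  refine ⟨a, b, (pair_iff a b).2 ⟨?_, ?_, ?_⟩⟩
  · show coeff 0 (appr d (0 : Fin d →₀ ℕ).degree).1 = 0
    simp [appr]
  · show coeff 0 (appr d (0 : Fin d →₀ ℕ).degree).2 = 0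
    simp [appr]
  · intro n w hw
    have h : lamProd (cls a b) n = lamProd (cls (appr d n).1 (appr d n).2) n := by
      apply lamProd_congr
      intro v _ hv
      obtain ⟨k, rfl⟩ := Nat.exists_eq_add_of_le hv
      exact ⟨(appr_stable v k).1.symm, (appr_stable v k).2.symm⟩
    rw [h]
    have ha : coeff w a = coeff w (appr d w.degree).1 := rfl
    have hb : coeff w b = coeff w (appr d w.degree).2 := rfl
    rw [ha, hb, hw, appr_succ1, appr_succ2, if_pos hw, if_pos hw]
    exact ⟨rfl, rfl⟩

/-- the pair `(a(V), b(V))` is unique -/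
theorem pair_unique {a b a' b' : R d} (h : IsShangPair a b) (h' : IsShangPair a' b') :
    a = a' ∧ b = b' := by
  rw [pair_iff] at h h'
  have key : ∀ (n : ℕ) (v : Fin d →₀ ℕ), v.degree = n → coeff v a = coeff v a' ∧
      coeff v b = coeff v b' := by
    intro n
    induction n using Nat.strong_induction_on with
    | _ n ih =>
      intro v hv
      rcases Nat.eq_zero_or_pos n with rfl | hn
      · have : v = 0 := (Finsupp.degree_eq_zero_iff v).1 hv
        subst this
        exact ⟨h.1.trans h'.1.symm, h.2.1.trans h'.2.1.symm⟩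
      · obtain ⟨m, rfl⟩ := Nat.exists_eq_succ_of_ne_zero hn.ne'
        have h1 := h.2.2 m v hv
        have h2 := h'.2.2 m v hv
        have h3 : lamProd (cls a b) m = lamProd (cls a' b') m :=
          lamProd_congr m fun u _ hu => ih u.degree (by omega) u rfl
        rw [h3] at h1
        exact ⟨h1.2.trans h2.2.symm, h1.1.trans h2.1.symm⟩
  exact ⟨MvPowerSeries.ext fun v => (key _ v rfl).1, MvPowerSeries.ext fun v => (key _ v rfl).2⟩

end Pool.Agent.U691.Shang
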